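import Pool.Agent.Helper10_Mackey.Sup

set_option autoImplicit false

namespace Pool.Agent.Results.MP_2b4c46_gt.NotMackey

open Pool.Agent.Helper10_Mackey

/-- For every prime `p` and the D-sequence `b = (p^n)`: the topology `s_b` is locally
quasi-convex with character group `H_b` (so it is compatible with `λ_b`), but it is not the
Mackey topology for `(ℤ, H_b)`; in fact there is no Mackey topology for `(ℤ, H_b)` at all. -/
theorem result (p : ℕ) (hp : p.Prime) :
    IsDSeq (fun n => p ^ n) ∧
    IsLQC (sTop (fun n => p ^ n)) ∧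
    charSet (sTop (fun n => p ^ n)) = Hset (fun n => p ^ n) ∧
    ¬ IsMackey (sTop (fun n => p ^ n)) (Hset (fun n => p ^ n)) ∧
    ¬ ∃ μ : TopologicalSpace ℤ, IsMackey μ (Hset (fun n => p ^ n)) :=
  ⟨isDSeq_pow hp.two_le, (sTop_compatible hp).1, (sTop_compatible hp).2,
    fun h => no_mackey hp ⟨_, h⟩, no_mackey hp⟩

end Pool.Agent.Results.MP_2b4c46_gt.NotMackey
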